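import Pool.Agent.H67.HC.Fin

/-!
A compact Riemannian manifold of dimension `d ≥ 2` with the spectrum of the round sphere of radius `r`: the harmonic part
of the cubic form `f ↦ ∫ f ^ 3` of the first eigenspace bounds the deviation of `φ = e_1 ^ 2 + … + e_(d+1) ^ 2` from a
constant and the high part of the products `e_i e_j`; if it is zero, the manifold is isometric to that sphere.
-/

open scoped Manifold ContDiff Topology
open MeasureTheory Bundle

namespace Pool.Agent.Results.MP_5a0f40_gt.CubicForm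

open Pool.Agent.H67.SQ Pool.Agent.H67.HC

/-- Let `M` be a compact smooth Riemannian manifold of dimension `d ≥ 2`, `μ` a finite Borel measure
on `M` which is positive on nonempty open sets (for example the Riemannian measure), and `lam` its
spectrum.  Suppose `lam` is the spectrum of the round sphere of dimension `d` and radius `r > 0`, or
only that the first `d + 1` nonzero eigenvalues are `d / r ^ 2` and the others at least
`2 (d + 1) / r ^ 2`.  Then (1) `(d+1)/(2(d+3)) r^2 ∫ |dφ|^2 + (d+4) K ≤ (d+2) H`, where `φ = e_1^2 + … + e_(d+1)^2`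
(`sumSq`), `H` (`harm`) is the squared norm of the harmonic part of the cubic form `f ↦ ∫ f^3` on the eigenspace of
`d / r ^ 2` and `K` (`high`) is the sum of `(∫ v_ij e_n)^2` over `i, j ≤ d + 1` and `lam n ≥ 3 (d+2) / r^2`,
`v_ij = e_i e_j - δ_ij φ / (d+1)` (`tfProd`).  (2) If `H ≤ K`, then `M` is isometric to the sphere of radius `r` in any
Euclidean space `W` of dimension `d + 1`.  (3) The same if there is an eigenfunction `g` with eigenvalue `d / r ^ 2` (for
example `g = 0`) with `∫ f ^ 3 = ∫ f g ∫ f ^ 2` for all eigenfunctions `f` with eigenvalue `d / r ^ 2`. -/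
theorem result {d : ℕ} (hd : 2 ≤ d) {r : ℝ} (hr : 0 < r) {E : Type*} [NormedAddCommGroup E]
    [NormedSpace ℝ E] (hE : Module.finrank ℝ E = d) {M : Type*} [TopologicalSpace M]
    [ChartedSpace E M] [IsManifold 𝓘(ℝ, E) ∞ M] [CompactSpace M]
    [T2Space M] [RiemannianBundle (fun x : M ↦ TangentSpace 𝓘(ℝ, E) x)] (hM : SmoothMetric E M)
    [MeasurableSpace M] [BorelSpace M] {μ : Measure M} [IsFiniteMeasure μ] [μ.IsOpenPosMeasure]
    {lam : ℕ → ℝ} {e : ℕ → M → ℝ} (h : IsSpectrum E μ lam e)
    (hlam : lam = sphereEig d r ∨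
      ((∀ n, 1 ≤ n → n ≤ d + 1 → lam n = d / r ^ 2) ∧
        ∀ n, d + 2 ≤ n → 2 * (d + 1) / r ^ 2 ≤ lam n))
    {W : Type*} [NormedAddCommGroup W] [InnerProductSpace ℝ W] (hW : Module.finrank ℝ W = d + 1) :
    (d + 1) / (2 * (d + 3)) * r ^ 2 * ∫ x, Gam E (sumSq e d) (sumSq e d) x ∂μ + (d + 4) * high μ lam e d r ≤
      (d + 2) * harm μ e d ∧
    (harm μ e d ≤ high μ lam e d r → IsometricToSphere E M W r) ∧
    ((∃ g : M → ℝ, IsEig E μ (d / r ^ 2) g ∧ ∀ f : M → ℝ, IsEig E μ (d / r ^ 2) f →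
      ∫ x, f x ^ 3 ∂μ = (∫ x, f x * g x ∂μ) * ∫ x, f x ^ 2 ∂μ) → IsometricToSphere E M W r) := by
  rcases hlam with hl | ⟨h1, h2⟩
  · have h3 := sphereEig_values (d := d) (by omega) hr
    subst hl
    exact main hE hd hr hM h h3.1 h3.2 hW
  · exact main hE hd hr hM h h1 h2 hW

end Pool.Agent.Results.MP_5a0f40_gt.CubicForm
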