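import Pool.Agent.H67.QD.Fin
import Pool.Agent.H67.QS.Sph

/-!
A compact Riemannian manifold of dimension `d ≥ 2` with the spectrum of the round sphere of radius `r` whose second
eigenfunctions are sums of a constant and a quadratic form in the first eigenfunctions is isometric to that sphere.
-/

open scoped Manifold ContDiff Topology
open MeasureTheory Bundle

namespace Pool.Agent.Results.MP_5a0f40_gt.QuadraticSecond

open Pool.Agent.H67.SQ

/-- Let `M` be a compact smooth Riemannian manifold of dimension `d ≥ 2`, `μ` a finite Borel measure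
on `M` which is positive on nonempty open sets (for example the Riemannian measure), and `lam` its
spectrum.  Suppose `lam` is the spectrum of the round sphere of dimension `d` and radius `r > 0`, or
only that `lam n = d / r ^ 2` for `1 ≤ n ≤ d + 1` and `lam n = 2 (d + 1) / r ^ 2` for
`d + 2 ≤ n < (d + 1) (d + 4) / 2`.  If every eigenfunction with eigenvalue `2 (d + 1) / r ^ 2` is a linear combination
of `1` and products `f g` of eigenfunctions with eigenvalue `d / r ^ 2`, then `M` is isometric to the sphere of radius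
`r` in any Euclidean space `W` of dimension `d + 1`. -/
theorem result {d : ℕ} (hd : 2 ≤ d) {r : ℝ} (hr : 0 < r) {E : Type*} [NormedAddCommGroup E]
    [NormedSpace ℝ E] (hE : Module.finrank ℝ E = d) {M : Type*} [TopologicalSpace M]
    [ChartedSpace E M] [IsManifold 𝓘(ℝ, E) ∞ M] [CompactSpace M]
    [T2Space M] [RiemannianBundle (fun x : M ↦ TangentSpace 𝓘(ℝ, E) x)] (hM : SmoothMetric E M)
    [MeasurableSpace M] [BorelSpace M] {μ : Measure M} [IsFiniteMeasure μ] [μ.IsOpenPosMeasure]
    {lam : ℕ → ℝ} {e : ℕ → M → ℝ} (h : IsSpectrum E μ lam e)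
    (hlam : lam = sphereEig d r ∨
      ((∀ n, 1 ≤ n → n ≤ d + 1 → lam n = d / r ^ 2) ∧
        ∀ n, d + 2 ≤ n → n < (d + 1) * (d + 4) / 2 → lam n = 2 * (d + 1) / r ^ 2))
    (hq : ∀ u : M → ℝ, IsEig E μ (2 * (d + 1) / r ^ 2) u →
      u ∈ Submodule.span ℝ (insert (fun _ => (1 : ℝ)) {w : M → ℝ | ∃ f g : M → ℝ,
        IsEig E μ (d / r ^ 2) f ∧ IsEig E μ (d / r ^ 2) g ∧ w = fun x => f x * g x}))
    {W : Type*} [NormedAddCommGroup W] [InnerProductSpace ℝ W] (hW : Module.finrank ℝ W = d + 1) :
    IsometricToSphere E M W r := by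
  rcases hlam with hl | ⟨h1, h2⟩
  · have h3 := sphereEig_values (d := d) (by omega) hr
    subst hl
    exact Pool.Agent.H67.QD.main hE hd hr hM h h3.1 h3.2
      (fun n hn hn' => Pool.Agent.H67.QS.sphere_second (by omega) n hn hn') hq hW
  · refine Pool.Agent.H67.QD.main hE hd hr hM h h1 (fun n hn => ?_) h2 hq hW
    have hlt : d + 2 < (d + 1) * (d + 4) / 2 := by
      have : (d + 3) * 2 ≤ (d + 1) * (d + 4) := by nlinarith
      have := (Nat.le_div_iff_mul_le (by norm_num : 0 < 2)).2 this
      omega
    rw [← h2 (d + 2) le_rfl hlt]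
    exact h.mono hn

end Pool.Agent.Results.MP_5a0f40_gt.QuadraticSecond
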