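import Pool.Agent.H67.SQ.Final
import Pool.Agent.H67.SR.Grow
import Pool.Agent.H67.SR.FormE

/-!
Let `f` be a maximum of the cubic form `g ↦ ∫ g ^ 3` on the unit sphere of the first eigenspace of a
compact Riemannian manifold of dimension `d ≥ 2` with the spectrum of the round sphere of radius `r`.
There is a sharp upper bound for `∫ f ^ 4`, and if equality holds, or if `f ^ 2` is a constant plus an
eigenfunction for `d / r ^ 2` plus an eigenfunction for `2 (d + 1) / r ^ 2`, then the manifold is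
isometric to that sphere.
-/

set_option autoImplicit false

open scoped Manifold ContDiff Topology
open MeasureTheory Bundle

namespace Pool.Agent.Results.MP_5a0f40_gt.SquareOfFirst

open Pool.Agent.H67.SQ Pool.Agent.H67.SR

/-- `f` is a maximum of the cubic form `g ↦ ∫ g ^ 3` among the eigenfunctions `g` with eigenvalue `L`
and `∫ g ^ 2 = 1`. -/
def IsCubicMax (E : Type*) [NormedAddCommGroup E] [NormedSpace ℝ E] {M : Type*} [TopologicalSpace M]
    [ChartedSpace E M] [RiemannianBundle (fun x : M ↦ TangentSpace 𝓘(ℝ, E) x)] [MeasurableSpace M]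
    (μ : Measure M) (L : ℝ) (f : M → ℝ) : Prop :=
  IsEig E μ L f ∧ ∫ x, f x ^ 2 ∂μ = 1 ∧
    ∀ g : M → ℝ, IsEig E μ L g → ∫ x, g x ^ 2 ∂μ = 1 → ∫ x, g x ^ 3 ∂μ ≤ ∫ x, f x ^ 3 ∂μ

/-- Let `M` be a compact smooth Riemannian manifold of dimension `d ≥ 2`, `μ` a finite Borel measure
on `M`, positive on nonempty open sets and of lower density of dimension `d` (for example the
Riemannian measure), and `lam` its spectrum.  Suppose `lam` is the spectrum of the round sphere of
dimension `d` and radius `r > 0`, or only that the first `d + 1` nonzero eigenvalues are `d / r ^ 2`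
and the others at least `2 (d + 1) / r ^ 2`.  Then the cubic form `∫ f ^ 3` has a maximum `f` among the
eigenfunctions with eigenvalue `d / r ^ 2` and `∫ f ^ 2 = 1`.  For every such `f`
`2 (d + 3) ∫ f ^ 4 ≤ 3 (2 (d + 1) / μ(M) + (d + 2) (∫ f ^ 3) ^ 2)`, and if equality holds, or if
`f ^ 2` is a constant plus an eigenfunction with eigenvalue `d / r ^ 2` plus an eigenfunction with
eigenvalue `2 (d + 1) / r ^ 2`, then `M` is isometric to the sphere of radius `r` in any Euclidean space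
`W` of dimension `d + 1`. -/
theorem result {d : ℕ} (hd : 2 ≤ d) {r : ℝ} (hr : 0 < r) {E : Type*} [NormedAddCommGroup E]
    [NormedSpace ℝ E] (hE : Module.finrank ℝ E = d) {M : Type*} [TopologicalSpace M]
    [ChartedSpace E M] [IsManifold 𝓘(ℝ, E) ∞ M] [CompactSpace M]
    [T2Space M] [RiemannianBundle (fun x : M ↦ TangentSpace 𝓘(ℝ, E) x)] (hM : SmoothMetric E M)
    [MeasurableSpace M] [BorelSpace M] {μ : Measure M} [IsFiniteMeasure μ] [μ.IsOpenPosMeasure]
    (hμ : LowerDensity E μ d) {lam : ℕ → ℝ} {e : ℕ → M → ℝ} (h : IsSpectrum E μ lam e)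
    (hlam : lam = sphereEig d r ∨
      ((∀ n, 1 ≤ n → n ≤ d + 1 → lam n = d / r ^ 2) ∧
        ∀ n, d + 2 ≤ n → 2 * (d + 1) / r ^ 2 ≤ lam n))
    {W : Type*} [NormedAddCommGroup W] [InnerProductSpace ℝ W] (hW : Module.finrank ℝ W = d + 1) :
    (∃ f : M → ℝ, IsCubicMax E μ (d / r ^ 2) f) ∧
    ∀ f : M → ℝ, IsCubicMax E μ (d / r ^ 2) f →
      2 * (d + 3) * ∫ x, f x ^ 4 ∂μ ≤
        3 * (2 * (d + 1) / μ.real Set.univ + (d + 2) * (∫ x, f x ^ 3 ∂μ) ^ 2) ∧
      ((2 * (d + 3) * ∫ x, f x ^ 4 ∂μ =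
          3 * (2 * (d + 1) / μ.real Set.univ + (d + 2) * (∫ x, f x ^ 3 ∂μ) ^ 2) ∨
        ∃ (c : ℝ) (a b : M → ℝ), IsEig E μ (d / r ^ 2) a ∧ IsEig E μ (2 * (d + 1) / r ^ 2) b ∧
          ∀ x, f x ^ 2 = c + a x + b x) →
      IsometricToSphere E M W r) := by
  have h12 : (∀ n, 1 ≤ n → n ≤ d + 1 → lam n = d / r ^ 2) ∧
      ∀ n, d + 2 ≤ n → 2 * (d + 1) / r ^ 2 ≤ lam n := by
    rcases hlam with hl | h3
    · subst hl
      exact sphereEig_values (d := d) (by omega) hr
    · exact h3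
  obtain ⟨h1, h2⟩ := h12
  have : IsContMDiffRiemannianBundle 𝓘(ℝ, E) ∞ E (fun x : M ↦ TangentSpace 𝓘(ℝ, E) x) := hM
  have : FiniteDimensional ℝ E := Module.finite_of_finrank_pos (by omega)
  refine ⟨exists_max (C := riem E M) h.spec (d := d) (by omega) hr h1 h2, ?_⟩
  rintro f ⟨hf, hf1, hfm⟩
  obtain ⟨hA, hB⟩ := max_facts (C := riem E M) h.spec (d := d) (by omega) hr h1 h2 hf hf1 hfm
  obtain ⟨hq1, hq2⟩ := quart (C := riem E M) h.spec (d := d) (by omega) hr h1 h2 hf hf1 hA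
  refine ⟨hq1, fun hcase => ?_⟩
  have hU : Pool.Agent.H67.SP.Carre.Eig (riem E M) μ (2 * (d + 1) / r ^ 2)
      (fun x => f x ^ 2 - 1 / μ.real Set.univ - (∫ x, f x ^ 3 ∂μ) * f x) := by
    rcases hcase with heq | ⟨c, a, b, ha, hb, hab⟩
    · exact hq2 heq
    · exact alg_case (C := riem E M) h.spec (d := d) (by omega) hr h1 h2 hf hf1 hA ha hb hab
  exact main hE hd hr hM h h1 h2 (fun g hg => form (C := riem E M) h.spec (d := d) (by omega) hr
    hf hf1 hB hU (fun u hu x0 hx0 => crit hu hx0) (fun u hu x0 hx0 => grow hμ hu hx0) g hg) hW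

end Pool.Agent.Results.MP_5a0f40_gt.SquareOfFirst
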