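import Pool.Agent.H98.SR.Crit
import Pool.Agent.H67.TN.Gen
import Pool.Agent.H67.TN.Iso
import Pool.Agent.H67.TN.Rank

/-!
A compact Riemannian manifold of dimension `d ≥ 2` with the spectrum of the round sphere of radius `r`
is isometric to that sphere if all its first eigenfunctions `f` are transnormal: `|df|` is constant on
every level set of `f`.  More generally it is enough that `M` is connected, that `d / r ^ 2` is an
eigenvalue of multiplicity at least `d + 1`, and that the eigenfunctions for it are transnormal.
-/

set_option autoImplicit false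

open scoped Manifold ContDiff Topology
open MeasureTheory Bundle

namespace Pool.Agent.Results.MP_5a0f40_gt.TransnormalFirst

open Pool.Agent.H67.SQ

/-- Let `M` be a compact smooth Riemannian manifold of dimension `d ≥ 2`, `μ` a finite Borel measure
on `M` which is positive on nonempty open sets (for example the Riemannian measure), and `lam` its
spectrum.  Suppose `lam` is the spectrum of the round sphere of dimension `d` and radius `r > 0`, or
only that `M` is connected and the number `d / r ^ 2` occurs at least `d + 1` times in the sequence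
`lam`.  If every eigenfunction `f` with eigenvalue `d / r ^ 2` is transnormal (the squared norm of the
differential of `f` is constant on each level set of `f`), then `M` is isometric to the sphere of radius
`r` in any Euclidean space `W` of dimension `d + 1`. -/
theorem result {d : ℕ} (hd : 2 ≤ d) {r : ℝ} (hr : 0 < r) {E : Type*} [NormedAddCommGroup E]
    [NormedSpace ℝ E] (hE : Module.finrank ℝ E = d) {M : Type*} [TopologicalSpace M]
    [ChartedSpace E M] [IsManifold 𝓘(ℝ, E) ∞ M] [CompactSpace M]
    [T2Space M] [RiemannianBundle (fun x : M ↦ TangentSpace 𝓘(ℝ, E) x)] (hM : SmoothMetric E M)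
    [MeasurableSpace M] [BorelSpace M] {μ : Measure M} [IsFiniteMeasure μ] [μ.IsOpenPosMeasure]
    {lam : ℕ → ℝ} {e : ℕ → M → ℝ} (h : IsSpectrum E μ lam e)
    (hlam : lam = sphereEig d r ∨
      (ConnectedSpace M ∧ ∃ s : Finset ℕ, s.card = d + 1 ∧ ∀ n ∈ s, lam n = d / r ^ 2))
    (htn : ∀ f : M → ℝ, IsEig E μ (d / r ^ 2) f → ∀ x y, f x = f y → sqNorm E f x = sqNorm E f y)
    {W : Type*} [NormedAddCommGroup W] [InnerProductSpace ℝ W] (hW : Module.finrank ℝ W = d + 1) :
    IsometricToSphere E M W r := by
  have hd0 : (0 : ℝ) < d := by exact_mod_cast (by omega : 0 < d)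
  have : IsContMDiffRiemannianBundle 𝓘(ℝ, E) ∞ E (fun x : M ↦ TangentSpace 𝓘(ℝ, E) x) := hM
  have : FiniteDimensional ℝ E := Module.finite_of_finrank_pos (by omega)
  have h12 : ConnectedSpace M ∧ ∃ s : Finset ℕ, s.card = d + 1 ∧ ∀ n ∈ s, lam n = d / r ^ 2 := by
    rcases hlam with hl | h3
    · subst hl
      obtain ⟨h1, h2⟩ := sphereEig_values (d := d) (by omega) hr
      refine ⟨connected_of_spec h fun n hn => ?_, (Finset.range (d + 1)).map ⟨Nat.succ, Nat.succ_injective⟩,
        by simp, fun n hn => ?_⟩
      · rcases le_or_gt n (d + 1) with h' | h'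
        · rw [h1 n hn h']; positivity
        · exact lt_of_lt_of_le (by positivity) (h2 n (by omega))
      · simp only [Finset.mem_map, Finset.mem_range, Function.Embedding.coeFn_mk] at hn
        obtain ⟨k, hk, rfl⟩ := hn
        exact h1 _ (by omega) (by omega)
    · exact h3
  obtain ⟨hconn, s, hcard, hs⟩ := h12
  have hsq : ∀ f : M → ℝ, Smooth E f → ∀ x, Gam E f f x = sqNorm E f x := by
    intro f hf x
    have b := stdOrthonormalBasis ℝ (TangentSpace 𝓘(ℝ, E) x)
    rw [Gam_eq hf hf x b, sqNorm_eq f x b]
    exact Finset.sum_congr rfl fun i _ => by ring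
  set σ := s.orderEmbOfFin hcard with hσ
  have hσs : ∀ k, lam (σ k) = d / r ^ 2 := fun k => hs _ (s.orderEmbOfFin_mem hcard k)
  have hfE : ∀ k : Fin (d + 1), IsEig E μ (d / r ^ 2) (e (σ k)) := fun k => by
    have := h.eig (σ k)
    rwa [hσs k] at this
  obtain ⟨ρ, hρ, hsum, hG⟩ := Pool.Agent.H67.TN.gen (C := riem E M) (μ := μ) hd
    (L := d / r ^ 2) (by positivity) (f := fun k => e (σ k)) hfE
    (fun k l => by
      rw [h.orth]
      by_cases hkl : k = l
      · simp [hkl]
      · have : ¬ σ k = σ l := fun h0 => hkl (σ.injective h0)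
        simp [hkl, this])
    (fun g hg x y hxy => by
      show Gam E g g x = Gam E g g y
      rw [hsq g hg.1 x, hsq g hg.1 y]
      exact htn g hg x y hxy)
    (fun x => Pool.Agent.H67.TN.rank hE (fun k => (hfE k).1) x)
    (fun u hu x0 hx0 => Pool.Agent.H98.SR.crit hu hx0)
  refine Pool.Agent.H67.TN.iso hE hd hr hM (f := fun k => e (σ k)) (fun k => (hfE k).1) hρ hsum (fun i j x => ?_) hW
  have e1 : (d : ℝ) / (d / r ^ 2) = r ^ 2 := by field_simp
  have e2 := hG i j x
  rw [e1] at e2
  exact e2

end Pool.Agent.Results.MP_5a0f40_gt.TransnormalFirst
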